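import Pool.Agent.H90.D2.Hhd
import Pool.Agent.H31.D2.P8y3

/-!
# The hop cell: the number at the window of the block, the first coordinate from a cell

As `few_blk`, `few_cg`, the digits `q` of the coordinates are not bounded by the window of the block
for the first coordinate: its position at the middle of the window (`Pool.KPO.yc`) is a part of the
record. `ycL`: this cell as a function of the line with the window.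
-/

set_option autoImplicit false

namespace Pool.D2N

open Finset Real MvPolynomial
open Pool.Agent.H49.Ent Pool.Agent.H32.Dense Pool.STK Pool.KA Pool.KSAT Pool.K2S Pool.PB Pool.S6C
open Pool.GEN Pool.CHT Pool.CHX Pool.LA91
open Pool.D2F Pool.D2Z Pool.D2F2
open Pool.D2R (dd hs co co_slam)
open Pool.X31 (nw)
open Pool.OWN68 (opl tw uw mid dirv natDegree_opl opl_jet uw_abs)
open Pool.KPO (yc yc_two lines_y)

variable {m J : ℕ}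

/-- **The cell of the position of the first coordinate** at the middle of the window `W`, a function
of the line with the window. -/
noncomputable def ycL {F : Fam m J} {κ : Type} {r D : ℕ} (d : Dat F κ r D) (w W : ℕ)
    (s : LnT F) : ℤ := ⌊d.SV 0 * (d.P 0 (co (W - w) s)).eval (u0 W w s.2.2)⌋

theorem ycL_slam {F : Fam m J} {κ : Type} {r D : ℕ} (d : Dat F κ r D) {w W : ℕ} (hw : w ≤ W)
    (hW : W ≤ J) (ω : F.Ω) : ycL d w W (slam F W ω) = yc d w W ω := by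
  unfold ycL yc
  rw [co_slam F hw hW]

variable {F : Fam m J} {c : ℕ → Fin m} {D w₀ w x sg q q₁ : ℕ} {g₁ g₂ : ℕ → ℕ}

variable {W k k₁ k₂ e₂ e₃ M q₀ : ℕ} {g : ℕ → ℕ} {B : F.Ω → Prop}
    {Ht : LnT F → MvPolynomial (Option (Fin m)) ℝ}
    {Ga : PtT F → ℕ → MvPolynomial (Option (Fin m)) ℝ}
    {ψ₁ ψ₂ Sv : PtT F → ℕ → Option (Fin m) → ℝ} {ψH₁ ψH₂ ψH : LnT F → ℕ → Option (Fin m) → ℝ}
    {hD : ∀ s, (Ht s).totalDegree ≤ D}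

/-- The paths of two lines with the same record, the same cell of the velocity and the same cell of
the position. -/
theorem pth_near_y (hq : q ≤ q₀) (hw : w ≤ W) (hW : W ≤ J)
    (hG : Gb F c g₂ g w (w - w₀) W k 3 D sg M ψH₂ Ht Ga B)
    (la : ∀ l < 3, l ≠ 0 → g₂ l + q ≤ g l) (la' : ∀ l < 3, l ≠ 0 → g₂ l + q + W ≤ g l + w)
    {ω ω' : F.Ω} (hω : B ω) (hω' : B ω') (hT : F.T1 W ω = F.T1 W ω')
    (hψ : ψH₂ (slam F w ω) = ψH₂ (slam F w ω'))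
    (hGa : ∀ l ≤ 3, Ga (ptr F J ω) l = Ga (ptr F J ω') l)
    (hy : yc (hdt2 F c g₂ w (w - w₀) 3 D q₀ q sg ψH₂ Ht hD) w W ω =
      yc (hdt2 F c g₂ w (w - w₀) 3 D q₀ q sg ψH₂ Ht hD) w W ω')
    (he : cV (hdt2 F c g₂ w (w - w₀) 3 D q₀ q sg ψH₂ Ht hD) w ω =
      cV (hdt2 F c g₂ w (w - w₀) 3 D q₀ q sg ψH₂ Ht hD) w ω') :
    ∀ l < 3, ∀ j < 2, |((hdt2 F c g₂ w (w - w₀) 3 D q₀ q sg ψH₂ Ht hD).P l (slam F w ω) -
      (hdt2 F c g₂ w (w - w₀) 3 D q₀ q sg ψH₂ Ht hD).P l (slam F w ω')).coeff j| ≤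
        2 ^ (11 * k + 36) / 2 ^ (g₂ l + q) := by
  have h1 : (2 : ℝ) ^ (g₂ 0 + q) * |(hdt F c g₂ w (w - w₀) 3 D q sg ψH₂ Ht hD).e w 0 ω -
      (hdt F c g₂ w (w - w₀) 3 D q sg ψH₂ Ht hD).e w 0 ω'| ≤ (1 : ℕ) := by
    have h2 : (2 : ℝ) ^ (g₂ 0 + q₀) * |(hdt F c g₂ w (w - w₀) 3 D q sg ψH₂ Ht hD).e w 0 ω -
      (hdt F c g₂ w (w - w₀) 3 D q sg ψH₂ Ht hD).e w 0 ω'| ≤ 1 := by
      have h3 := fl_one (s := (hdt2 F c g₂ w (w - w₀) 3 D q₀ q sg ψH₂ Ht hD).SE 0)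
        (by change (0 : ℝ) ≤ 2 ^ (g₂ 0 + Pool.D2F2.qv q₀ q 0); positivity) he
      exact h3
    push_cast
    refine le_trans (mul_le_mul_of_nonneg_right (two_le (by omega)) (abs_nonneg _)) h2
  have h2 : (2 : ℝ) ^ (g₂ 0 + q) * |(hdt F c g₂ w (w - w₀) 3 D q sg ψH₂ Ht hD).v w 0 ω' -
      (hdt F c g₂ w (w - w₀) 3 D q sg ψH₂ Ht hD).v w 0 ω -
      (hdt F c g₂ w (w - w₀) 3 D q sg ψH₂ Ht hD).e w 0 ω' * (uw F w ω' - uw F w ω)| ≤ 2 := by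
    have h3 : (2 : ℝ) ^ (g₂ 0 + q₀) * |(hdt F c g₂ w (w - w₀) 3 D q sg ψH₂ Ht hD).v w 0 ω' -
      (hdt F c g₂ w (w - w₀) 3 D q sg ψH₂ Ht hD).v w 0 ω -
      (hdt F c g₂ w (w - w₀) 3 D q sg ψH₂ Ht hD).e w 0 ω' * (uw F w ω' - uw F w ω)| ≤ 2 :=
      yc_two (hdt2 F c g₂ w (w - w₀) 3 D q₀ q sg ψH₂ Ht hD) hw hW
        (s := 2 ^ (g₂ 0 + q₀)) (by positivity)
        (by change (2 : ℝ) ^ (g₂ 0 + Pool.D2F2.qv q₀ q 0) = _; rw [Pool.D2F2.qv_zero])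
        (by change (2 : ℝ) ^ (g₂ 0 + Pool.D2F2.qv q₀ q 0) = _; rw [Pool.D2F2.qv_zero])
        hT he hy
    exact (mul_le_mul_of_nonneg_right (two_le (by omega)) (abs_nonneg _)).trans h3
  intro l hl j hj
  have h4 := lines_y hG hw hW hω hω' hT hψ hGa h1 h2 la la' l hl j hj
  rw [le_div_iff₀ (by positivity), mul_comm]
  refine h4.trans ?_
  have e1 : ((2 * ((2 * 3 + 2) * 2 ^ k) ^ (2 * 3 + 5) * (1 + 2) : ℕ) : ℝ) =
      6 * 2 ^ (11 * k + 33) := by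
    rw [show (2 * 3 + 2) * 2 ^ k = 2 ^ (3 + k) by rw [pow_add]; ring, ← pow_mul,
      show (3 + k) * (2 * 3 + 5) = 11 * k + 33 by ring]
    push_cast
    ring
  rw [e1, show 11 * k + 36 = 3 + (11 * k + 33) by ring, pow_add (2 : ℝ) 3]
  exact mul_le_mul_of_nonneg_right (by norm_num) (by positivity)

/-- **Few at the window of the block**, for refined own data, the position of the first coordinate in
the record. -/
theorem few_blk_y (N : BsN x sg q q₁ w₀ w g₁ g₂) (hc : Set.InjOn c (Set.Iio 3)) (hD2 : 2 ≤ D)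
    (hDx : ((D : ℝ) + 1) * 2 ^ D ≤ 2 ^ x) (hq : q ≤ q₀) (hw : w ≤ W) (hW : W ≤ J)
    (h₁ : WFr F c 4 w₀ k₁ e₂ g₁ B ψ₁ ψH₁ Sv) (h₂ : WFr F c 4 w k₂ e₃ g₂ B ψ₂ ψH₂ Sv)
    (hψ : ∀ s l, CvC c l (ψH s l)) (hk₁ : k₁ ≤ x) (hk₂ : k₂ ≤ x) (hQ : ∀ s, DepC c 3 (Ht s))
    (hM : ∀ ω, B ω → ∀ i < 3, ∀ j, |(gq F c g₁ w₀ 0 ψH₁ Ht (slam F w₀ ω) i).coeff (j + 1)| ≤
      2 ^ x / 2 ^ g₁ 3 * 2 ^ g₁ i) (hC : Co0 F c sg x (w - w₀) w g₂ ψH₂ Ht B)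
    (hG : Gb F c g₂ g w (w - w₀) W k 3 D sg M ψH₂ Ht Ga B)
    (la : ∀ l < 3, l ≠ 0 → g₂ l + q ≤ g l) (la' : ∀ l < 3, l ≠ 0 → g₂ l + q + W ≤ g l + w)
    {p : F.Ω → ℝ} (hp : IsLaw p) (hB : ∀ ω, 0 < p ω → B ω) {ζ : Type} {z : F.Ω → ζ}
    (hz : ∀ ω ω', B ω → B ω' → z ω = z ω' → ψH₂ (slam F w ω) = ψH₂ (slam F w ω') ∧
      ψH (slam F W ω) = ψH (slam F W ω') ∧ F.T1 W ω = F.T1 W ω' ∧
      (∀ l ≤ 3, Ga (ptr F J ω) l = Ga (ptr F J ω') l) ∧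
      yc (hdt2 F c g₂ w (w - w₀) 3 D q₀ q sg ψH₂ Ht hD) w W ω =
        yc (hdt2 F c g₂ w (w - w₀) 3 D q₀ q sg ψH₂ Ht hD) w W ω')
    {n₃ : ℕ} (h3 : n₃ ≤ g₂ 3 + q + sg + 2 * (W - w)) {SV SE SG : ℕ → ℝ} {E : ℝ}
    (few : CH p (fun ω => ⌊(2 : ℝ) ^ (g₂ 3 + q + sg) *
      nw (hdt2 F c g₂ w (w - w₀) 3 D q₀ q sg ψH₂ Ht hD) w
        (rfv p z (eR (hdt2 F c g₂ w (w - w₀) 3 D q₀ q sg ψH₂ Ht hD) w)
          (fun ω l => (hdt2 F c g₂ w (w - w₀) 3 D q₀ q sg ψH₂ Ht hD).P l (slam F w ω))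
          (z ω) (eR (hdt2 F c g₂ w (w - w₀) 3 D q₀ q sg ψH₂ Ht hD) w ω)) ω⌋)
      (fun ω => (eR (hdt2 F c g₂ w (w - w₀) 3 D q₀ q sg ψH₂ Ht hD) w ω, z ω)) ≤ E) :
    CH p (fun ω => ⌊(2 : ℝ) ^ n₃ * nw (fdat F c g W (W - w₀) 3 D ψH Ht hD SV SE SG) W
      (rfv p z (fun ω => (eR (hdt2 F c g₂ w (w - w₀) 3 D q₀ q sg ψH₂ Ht hD) w ω,
          eC (hdt2 F c g₂ w (w - w₀) 3 D q₀ q sg ψH₂ Ht hD) w (g₂ 0 + q₁) ω))
        (fun ω l => (fdat F c g W (W - w₀) 3 D ψH Ht hD SV SE SG).P l (slam F W ω))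
        (z ω) (eR (hdt2 F c g₂ w (w - w₀) 3 D q₀ q sg ψH₂ Ht hD) w ω,
          eC (hdt2 F c g₂ w (w - w₀) 3 D q₀ q sg ψH₂ Ht hD) w (g₂ 0 + q₁) ω)) ω⌋)
      (fun ω => ((eR (hdt2 F c g₂ w (w - w₀) 3 D q₀ q sg ψH₂ Ht hD) w ω,
        eC (hdt2 F c g₂ w (w - w₀) 3 D q₀ q sg ψH₂ Ht hD) w (g₂ 0 + q₁) ω), z ω)) ≤
      E + (71 * x + 22 * k + 90 : ℕ) * Real.log 2 := by
  obtain ⟨d, hd⟩ : ∃ d, d = hdt2 F c g₂ w (w - w₀) 3 D q₀ q sg ψH₂ Ht hD := ⟨_, rfl⟩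
  have hx := N.x1
  have hgp : ∀ l < 3, ∀ ω, B ω → ∀ j, |(d.gp l (slam F w ω)).coeff (j + 1)| ≤
      2 ^ (67 * x) * (2 ^ g₁ l / 2 ^ (g₁ 3 + (j + 1) * (w - w₀))) := fun l hl ω hω j => by
    have h4 := (nr_two (h₁.nr ω hω) (h₂.nr ω hω) hk₁ hk₂ N.up N.upj).1
    rw [h₁.fr.cls ω hω, h₂.fr.cls ω hω] at h4
    rw [hd]
    exact gq_base hx N.wB hc (hw.trans hW) (h₂.fr.depH _) (h₁.fr.depH _) hQ hD hDx h4 (hM ω hω)
      hl j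
  have hpn : ∀ ω ω', B ω → B ω' → z ω = z ω' → eR d w ω = eR d w ω' → ∀ l < 3, ∀ j < 2,
      |(d.P l (slam F w ω) - d.P l (slam F w ω')).coeff j| ≤
        2 ^ (11 * k + 36) / 2 ^ (g₂ l + q) := fun ω ω' hω hω' ez ee => by
    obtain ⟨a1, a2, a3, a4, a5⟩ := hz ω ω' hω hω' ez
    rw [hd] at ee ⊢
    exact pth_near_y hq hw hW hG la la' hω hω' a3 a1 a4 a5 (Prod.ext_iff.1 ee).1
  have hgn : ∀ ω ω', eR d w ω = eR d w ω' → ∀ l < 3, ∀ j, j = 1 ∨ j = 2 →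
      |(d.gp l (slam F w ω)).coeff j - (d.gp l (slam F w ω')).coeff j| ≤
        2 ^ g₂ l / 2 ^ (g₂ 3 + sg) := by
    intro ω ω' ee l hl j hj
    have h5 : cG d w ω ⟨l, hl⟩ ⟨j - 1, by omega⟩ = cG d w ω' ⟨l, hl⟩ ⟨j - 1, by omega⟩ := by
      have h8 : cG d w ω = cG d w ω' := (Prod.ext_iff.1 ee).2
      rw [h8]
    unfold cG at h5
    rw [show j - 1 + 1 = j by omega] at h5
    have h6 : d.SG l = 2 ^ (g₂ 3 + sg) / 2 ^ g₂ l := by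
      rw [hd]
      rfl
    have h7 := fl_near (by rw [h6]; positivity) h5
    rw [h6, one_div_div] at h7
    exact h7
  rw [← hd] at few ⊢
  have f1 := few_ref d w hp (z := z) (e := eR d w) (e' := eC d w (g₂ 0 + q₁))
    (N := g₂ 3 + q + sg) (K := 2 ^ (11 * k + 39)) (A := fun l => 2 ^ g₂ l / 2 ^ (g₂ 3 + sg))
    (B := fun l => 2 ^ (11 * k + 36) / 2 ^ (g₂ l + q)) (fun l _ => by positivity)
    (fun ω ω' hω hω' _ ee => hgn ω ω' ee)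
    (fun ω ω' hω hω' ez ee => hpn ω ω' (hB ω hω) (hB ω' hω') ez ee) (by
      have h7 : ∀ l, (2 : ℝ) ^ g₂ l / 2 ^ (g₂ 3 + sg) * (2 ^ (11 * k + 36) / 2 ^ (g₂ l + q)) =
          2 ^ (11 * k + 36) / 2 ^ (g₂ 3 + q + sg) := by
        intro l
        simp only [pow_add]
        field_simp
      simp only [h7]
      rw [sum_const, card_range, nsmul_eq_mul]
      push_cast
      rw [show 11 * k + 39 = 3 + (11 * k + 36) by ring, pow_add (2 : ℝ) 3]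
      have h8 : (2 : ℝ) ^ (g₂ 3 + q + sg) * (3 * (2 ^ (11 * k + 36) / 2 ^ (g₂ 3 + q + sg) +
          2 ^ (11 * k + 36) / 2 ^ (g₂ 3 + q + sg))) = 6 * 2 ^ (11 * k + 36) := by
        field_simp
        ring
      rw [h8]
      exact mul_le_mul_of_nonneg_right (by norm_num) (by positivity))
  have f2 : CH p (fun ω => ⌊(2 : ℝ) ^ (g₂ 3 + q + sg) * nw d w (rfv p z
      (fun ω => (eR d w ω, eC d w (g₂ 0 + q₁) ω)) (fun ω l => d.P l (slam F w ω)) (z ω)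
        (eR d w ω, eC d w (g₂ 0 + q₁) ω)) ω⌋)
      (fun ω => ((eR d w ω, eC d w (g₂ 0 + q₁) ω), z ω)) ≤
      E + (11 * k + 43 : ℕ) * Real.log 2 := by
    refine f1.trans (add_le_add few ?_)
    have h9 := log_cells (11 * k + 39)
    push_cast at h9 ⊢
    linarith
  have f3 := few_win (F := F) (c := c) (r := 3) (D := D) (Ht := Ht) (hD := hD) (g := g)
    (g₁ := g₂) (W := W) (n := W - w₀) (w := w) (n₁ := w - w₀) (ψH := ψH) (ψH₁ := ψH₂)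
    (SV := SV) (SE := SE) (SG := SG) (SV₁ := d.SV) (SE₁ := d.SE) (SG₁ := d.SG) hc hw hW hψ
    h₂.fr.depH hQ (by omega) (by omega) (by have := N.wB; omega) hp (z := z)
    (e := fun ω => (eR d w ω, eC d w (g₂ 0 + q₁) ω)) (n₂ := g₂ 3 + q + sg) (n₃ := n₃)
    (N := 2 ^ (71 * x + 11 * k + 43))
    (M := 2 ^ (68 * x + (11 * k + 36) + 3) / 2 ^ (g₂ 3 + q + sg)) (by
      intro ω ω₀ hω hω₀ ez ee
      obtain ⟨a1, a2, a3, a4, -⟩ := hz ω ω₀ (hB ω hω) (hB ω₀ hω₀) ez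
      refine ⟨a2.symm, a1.symm, a3, fun j hj => ?_⟩
      have e1 := (Prod.ext_iff.1 ee).1
      have e2 := (Prod.ext_iff.1 ee).2
      have h5 := ph_small N d (s := slam F w ω) (s₀ := slam F w ω₀) (Y := 11 * k + 36)
        (fun l hl _ j => hgp l hl ω (hB ω hω) j) (by
          rw [hd]
          exact hC.c2 ω (hB ω hω)) (by
          rw [hd]
          exact hC.c3 ω (hB ω hω)) (hpn ω ω₀ (hB ω hω) (hB ω₀ hω₀) ez e1) (by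
          have h6 : |d.e w 0 ω - d.e w 0 ω₀| ≤ 1 / 2 ^ (g₂ 0 + q₁) :=
            fl_near (by positivity) e2
          rw [Polynomial.coeff_sub]
          refine h6.trans (div_le_div_of_nonneg_right (one_le_pow₀ (by norm_num))
            (by positivity))) hj
      rw [hd] at h5 ⊢
      exact h5) (by
      have h6 := dg_num hDx
      push_cast
      have h7 : (2 : ℝ) ^ (g₂ 3 + q + sg) * (((D : ℝ) + 1) * ((D + 3) ^ 2 *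
          (2 ^ (68 * x + (11 * k + 36) + 3) / 2 ^ (g₂ 3 + q + sg)))) =
          (((D : ℝ) + 1) * (D + 3) ^ 2) * 2 ^ (68 * x + (11 * k + 36) + 3) := by
        field_simp
      rw [h7, show 71 * x + 11 * k + 43 = 3 * x + 4 + (68 * x + (11 * k + 36) + 3) by ring,
        pow_add (2 : ℝ) (3 * x + 4)]
      exact mul_le_mul_of_nonneg_right h6 (by positivity)) h3 (e1 := E +
        (11 * k + 43 : ℕ) * Real.log 2) (by
      rw [hd] at f2 ⊢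
      exact f2)
  refine f3.trans ?_
  have h9 := log_cells (71 * x + 11 * k + 43)
  push_cast at h9 ⊢
  linarith

section

variable {F : Fam m J} {c : ℕ → Fin m} {D x e₀ sg w₀ w W b a' : ℕ}
    {g₁ g₂ g gb g' gT : ℕ → ℕ} {kG M v v' e p : ℕ} {U : ℝ} {B : F.Ω → Prop}
    {ψ₁ ψ₂ ψ ψ' Sv : PtT F → ℕ → Option (Fin m) → ℝ}
    {ψH₁ ψH₂ ψH ψH' : LnT F → ℕ → Option (Fin m) → ℝ}
    {Ga Gc G' : PtT F → ℕ → MvPolynomial (Option (Fin m)) ℝ}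
    {Ha Hc H' : LnT F → ℕ → MvPolynomial (Option (Fin m)) ℝ}
    {T : PtT F → ℕ → MvPolynomial (Option (Fin m)) ℝ}
    {TH : LnT F → ℕ → MvPolynomial (Option (Fin m)) ℝ}
    {Ht : LnT F → MvPolynomial (Option (Fin m)) ℝ}
    {Va : Type} {za : PtT F → Va} {zaH : LnT F → Va}

/-- **The number of the block**, in the form of the end, the position of the first coordinate in the
record. -/
theorem few_cg_y {q q₀ q₁ s : ℕ} (hD : ∀ s, (Ht s).totalDegree ≤ D)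
    (H : HbG F c D x e₀ sg w₀ w W b a' g₁ g₂ g gb g' gT kG M v v' e p U B ψ₁ ψ₂ ψ ψ'
    Sv ψH₁ ψH₂ ψH ψH' Ga Gc G' Ha Hc H' T TH Ht)
    (N₂ : BsN x sg q q₁ w₀ w g₁ g₂) (hq : q ≤ q₀) (hw : w ≤ W)
    (la : ∀ l < 3, l ≠ 0 → g₂ l + q ≤ g l) (la' : ∀ l < 3, l ≠ 0 → g₂ l + q + W ≤ g l + w)
    (hn : s + g 3 + 2 ≤ g₂ 3 + q + sg + 2 * (W - w))
    (hC : Co0 F c sg x (w - w₀) w g₂ ψH₂ Ht B)
    (hz : Rcd F B W za zaH) {P : F.Ω → ℝ} (hp : IsLaw P) (hB : ∀ ω, 0 < P ω → B ω)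
    {SV SE SG : ℕ → ℝ} {E : ℝ}
    (few : CH P (fun ω => ⌊(2 : ℝ) ^ (g₂ 3 + q + sg) *
      nw (hdt2 F c g₂ w (w - w₀) 3 D q₀ q sg ψH₂ Ht hD) w
        (rfv P (fun ω => (za (ptr F J ω),
            yc (hdt2 F c g₂ w (w - w₀) 3 D q₀ q sg ψH₂ Ht hD) w W ω))
          (eR (hdt2 F c g₂ w (w - w₀) 3 D q₀ q sg ψH₂ Ht hD) w)
          (fun ω l => (hdt2 F c g₂ w (w - w₀) 3 D q₀ q sg ψH₂ Ht hD).P l (slam F w ω))
          (za (ptr F J ω), yc (hdt2 F c g₂ w (w - w₀) 3 D q₀ q sg ψH₂ Ht hD) w W ω)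
          (eR (hdt2 F c g₂ w (w - w₀) 3 D q₀ q sg ψH₂ Ht hD) w ω)) ω⌋)
      (fun ω => (eR (hdt2 F c g₂ w (w - w₀) 3 D q₀ q sg ψH₂ Ht hD) w ω,
        (za (ptr F J ω), yc (hdt2 F c g₂ w (w - w₀) 3 D q₀ q sg ψH₂ Ht hD) w W ω))) ≤ E) :
    CH P (fun ω => ⌊(2 : ℝ) ^ (s + g 3 + 2) * nw (fdat F c g W (W - w₀) 3 D ψH Ht hD SV SE SG) W
      (rfv P (fun ω => (zaH (slam F W ω),
          ycL (hdt2 F c g₂ w (w - w₀) 3 D q₀ q sg ψH₂ Ht hD) w W (slam F W ω)))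
        (fun ω => eL (hdt2 F c g₂ w (w - w₀) 3 D q₀ q sg ψH₂ Ht hD) w W (g₂ 0 + q₁) (slam F W ω))
        (fun ω l => (fdat F c g W (W - w₀) 3 D ψH Ht hD SV SE SG).P l (slam F W ω))
        (zaH (slam F W ω), ycL (hdt2 F c g₂ w (w - w₀) 3 D q₀ q sg ψH₂ Ht hD) w W (slam F W ω))
        (eL (hdt2 F c g₂ w (w - w₀) 3 D q₀ q sg ψH₂ Ht hD) w W (g₂ 0 + q₁)
          (slam F W ω))) ω⌋)
      (fun ω => (eL (hdt2 F c g₂ w (w - w₀) 3 D q₀ q sg ψH₂ Ht hD) w W (g₂ 0 + q₁) (slam F W ω),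
        (zaH (slam F W ω),
          ycL (hdt2 F c g₂ w (w - w₀) 3 D q₀ q sg ψH₂ Ht hD) w W (slam F W ω)))) ≤
      E + (71 * x + 22 * kG + 90 : ℕ) * Real.log 2 := by
  have hW := H.hA.aJ
  have h1 := few_blk_y (ψH := ψH) (SV := SV) (SE := SE) (SG := SG) (n₃ := s + g 3 + 2) N₂ H.inj H.D2
    H.Dx hq hw hW H.h₁ H.h₂ H.hA.wf.fr.depH le_rfl le_rfl H.hQ H.hM hC H.hG la la' hp hB
    (z := fun ω => (za (ptr F J ω), yc (hdt2 F c g₂ w (w - w₀) 3 D q₀ q sg ψH₂ Ht hD) w W ω))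
    (fun ω ω' hω hω' e => by
      obtain ⟨e', ey⟩ := Prod.ext_iff.1 e
      obtain ⟨a1, a2, a3, a4⟩ := H.kza hw hz hω hω' e'
      rw [H.hA.wf.fr.cls ω hω, H.hA.wf.fr.cls ω' hω'] at a1
      exact ⟨a2, a1, a3, a4, ey⟩) hn few
  refine le_trans (le_of_eq ?_) h1
  have e1 : ∀ ω, eL (hdt2 F c g₂ w (w - w₀) 3 D q₀ q sg ψH₂ Ht hD) w W (g₂ 0 + q₁)
      (slam F W ω) = (eR (hdt2 F c g₂ w (w - w₀) 3 D q₀ q sg ψH₂ Ht hD) w ω,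
        eC (hdt2 F c g₂ w (w - w₀) 3 D q₀ q sg ψH₂ Ht hD) w (g₂ 0 + q₁) ω) := fun ω =>
    eL_slam _ hw hW _ ω
  have e3 : ∀ ω, ycL (hdt2 F c g₂ w (w - w₀) 3 D q₀ q sg ψH₂ Ht hD) w W (slam F W ω) =
      yc (hdt2 F c g₂ w (w - w₀) 3 D q₀ q sg ψH₂ Ht hD) w W ω := fun ω => ycL_slam _ hw hW ω
  simp only [e1, e3]
  have e2 : ∀ ω, 0 < P ω → (zaH (slam F W ω),
      yc (hdt2 F c g₂ w (w - w₀) 3 D q₀ q sg ψH₂ Ht hD) w W ω) =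
      (za (ptr F J ω), yc (hdt2 F c g₂ w (w - w₀) 3 D q₀ q sg ψH₂ Ht hD) w W ω) :=
    fun ω hω => by rw [hz.cls ω (hB ω hω)]
  refine CH_sup hp.nonneg (fun ω hω => ?_) (fun ω hω => ?_)
  · rw [rfv_sup (z := fun ω => (zaH (slam F W ω),
        yc (hdt2 F c g₂ w (w - w₀) 3 D q₀ q sg ψH₂ Ht hD) w W ω))
      (z' := fun ω => (za (ptr F J ω),
        yc (hdt2 F c g₂ w (w - w₀) 3 D q₀ q sg ψH₂ Ht hD) w W ω)) _ e2, e2 ω hω]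
  · rw [e2 ω hω]

end

end Pool.D2N
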