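import Pool.Agent.H17.TIE.F1

/-!
# The hop cell: the number of the own line without the direction of the first coordinate

`ReH.rz`: a richer record. `few_sum_y`: as `few_re`, the coefficient in the direction of the first
coordinate is small (`Tn`), the number is `∑ i, A i * V i`. `few_f1`: from the base window of the
number to the window of the block.
-/

set_option autoImplicit false

namespace Pool.D2N

open Finset Real MvPolynomial
open Pool.Agent.H49.Ent Pool.Agent.H32.Dense Pool.STK Pool.KA Pool.KSAT Pool.K2S Pool.PB Pool.S6C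
open Pool.GEN Pool.CHT Pool.CHX Pool.LA91
open Pool.D2F Pool.D2Z Pool.D2F2
open Pool.D2R (dd hs co co_slam)
open Pool.X31 (nw)
open Pool.KPO (yc yc_two lines_y)

variable {m J : ℕ} {F : Fam m J} {c : ℕ → Fin m} {g g' : ℕ → ℕ}
  {W n D a' k k' e₀ e₁ n' s V : ℕ} {ψ ψ' : PtT F → ℕ → Option (Fin m) → ℝ}
  {ψH ψH' : LnT F → ℕ → Option (Fin m) → ℝ} {Ht : LnT F → MvPolynomial (Option (Fin m)) ℝ}
  {B : F.Ω → Prop} {ζ ε ξ : Type} {z : LnT F → ζ} {e : LnT F → ε} {δ δ₁ δ' Kn L K B₀ : ℝ}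
  {SV SE SG : ℕ → ℝ}

/-- A richer record. -/
theorem ReH.rz (H : ReH F c g g' W n D a' k k' e₀ e₁ n' s V ψ ψ' ψH ψH' Ht B z e δ δ₁ δ' Kn L K B₀)
    (f : LnT F → ξ) :
    ReH F c g g' W n D a' k k' e₀ e₁ n' s V ψ ψ' ψH ψH' Ht B (fun s => (z s, f s)) e δ δ₁ δ' Kn L
      K B₀ :=
  { H with
    zy := fun ω ω' a b h => H.zy ω ω' a b (Prod.ext_iff.1 h).1
    zv := fun ω ω' a b h => H.zv ω ω' a b (Prod.ext_iff.1 h).1
    nE := fun ω ω' a b h h' => H.nE ω ω' a b (Prod.ext_iff.1 h).1 h'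
    nG := fun ω ω' a b h h' => H.nG ω ω' a b (Prod.ext_iff.1 h).1 h' }

/-- **Few**: the number of the own line without the direction of the first coordinate. -/
theorem few_sum_y {hD : ∀ s, (Ht s).totalDegree ≤ D}
    (H : ReH F c g g' W n D a' k k' e₀ e₁ n' s V ψ ψ' ψH ψH' Ht B z e δ δ₁ δ' Kn L K B₀)
    (f : LnT F → ξ) {p : F.Ω → ℝ} (hp : IsLaw p) (hB : ∀ ω, 0 < p ω → B ω) {N : ℕ}
    (hN : 12 * K * (L + B₀) ≤ N)
    (hT : ∀ ω, B ω → |Tn F c g W n ψH Ht ω| ≤ K / 2 ^ s) {e1 : ℝ}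
    (few : CH p (fun ω => ⌊2 ^ (s + g 3 + 2) * nw (fdat F c g W n 3 D ψH Ht hD SV SE SG) W
      (rfv p (fun ω => (z (slam F W ω), f (slam F W ω))) (fun ω => e (slam F W ω))
        (fun ω l => (fdat F c g W n 3 D ψH Ht hD SV SE SG).P l (slam F W ω))
        (z (slam F W ω), f (slam F W ω)) (e (slam F W ω))) ω⌋)
      (fun ω => (e (slam F W ω), (z (slam F W ω), f (slam F W ω)))) ≤ e1) :
    CH p (fun ω => ⌊2 ^ s * ∑ i, An F c g W n ψH Ht ω i * Vn F c g W ψ ω i⌋)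
      (fun ω => (e (slam F W ω), (z (slam F W ω), f (slam F W ω)))) ≤
      e1 + 2 * Real.log (2 * (2 * N + 2 : ℕ) + 1) := by
  have h1 := few_re (H.rz f) hp hB hN few
  have h2 := CH_near hp (fun ω => 2 ^ s * ∑ i, An F c g W n ψH Ht ω i * Vn F c g W ψ ω i)
    (fun ω => 2 ^ s * bR (En F c g W ψ) (tn F W) (yr F c g W ψ p (fun s => (z s, f s)))
      (Tn F c g W n ψH Ht) (An F c g W n ψH Ht) (Vn F c g W ψ) ω)
    (fun ω => (e (slam F W ω), (z (slam F W ω), f (slam F W ω)))) (fun _ => 0) (K := N) ?_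
  · linarith
  · intro ω hω
    have hb := hB ω hω
    have e1 : 2 ^ s * (∑ i, An F c g W n ψH Ht ω i * Vn F c g W ψ ω i) -
        (2 ^ s * bR (En F c g W ψ) (tn F W) (yr F c g W ψ p (fun s => (z s, f s)))
          (Tn F c g W n ψH Ht) (An F c g W n ψH Ht) (Vn F c g W ψ) ω + 0) =
        -(2 ^ s * (Tn F c g W n ψH Ht ω * (yr F c g W ψ p (fun s => (z s, f s)) ω -
          En F c g W ψ ω * tn F W ω))) := by
      unfold bR
      ring
    have hL := H.hL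
    have hK := H.hK
    have hB₀ := H.hB₀
    have hE : |En F c g W ψ ω| ≤ L := (Xn_le H.fr hb (by norm_num)).trans H.kL
    have hy := yr_abs (H.rz f) hB hω
    have ht := tn_abs F W ω
    have h3 : |yr F c g W ψ p (fun s => (z s, f s)) ω - En F c g W ψ ω * tn F W ω| ≤
        B₀ + L * (1 / 2) := by
      refine (abs_sub _ _).trans (add_le_add hy ?_)
      rw [abs_mul]
      exact mul_le_mul hE ht (abs_nonneg _) (by linarith)
    rw [e1, abs_neg, abs_mul, abs_of_pos (by positivity : (0 : ℝ) < 2 ^ s), abs_mul]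
    have h4 : 2 ^ s * (|Tn F c g W n ψH Ht ω| *
        |yr F c g W ψ p (fun s => (z s, f s)) ω - En F c g W ψ ω * tn F W ω|) ≤
        2 ^ s * (K / 2 ^ s * (B₀ + L * (1 / 2))) := by
      refine mul_le_mul_of_nonneg_left (mul_le_mul (hT ω hb) h3 (abs_nonneg _) (by positivity))
        (by positivity)
    refine h4.trans (le_trans (le_of_eq ?_) ((?_ : K * (B₀ + L * (1 / 2)) ≤ _).trans hN))
    · field_simp
    · have h5 : 0 ≤ K * L := by positivity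
      have h6 : 0 ≤ K * B₀ := by positivity
      linarith

/-- **F1**: from the base window of the number to the window of the block: the number of the own
line (without the direction of the first coordinate) is few bits given the own data, the record of
the block and the position of the first coordinate. -/
theorem few_f1 {D x e₀ sg w₀ w W b a' : ℕ} {g₁ g₂ g gb g' gT : ℕ → ℕ} {kG M v v' e p : ℕ} {U : ℝ}
    {B : F.Ω → Prop} {ψ₁ ψ₂ ψ ψ' Sv : PtT F → ℕ → Option (Fin m) → ℝ}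
    {ψH₁ ψH₂ ψH ψH' : LnT F → ℕ → Option (Fin m) → ℝ}
    {Ga Gc G' : PtT F → ℕ → MvPolynomial (Option (Fin m)) ℝ}
    {Ha Hc H' : LnT F → ℕ → MvPolynomial (Option (Fin m)) ℝ}
    {T : PtT F → ℕ → MvPolynomial (Option (Fin m)) ℝ}
    {TH : LnT F → ℕ → MvPolynomial (Option (Fin m)) ℝ}
    {Ht : LnT F → MvPolynomial (Option (Fin m)) ℝ}
    {Va : Type} {za : PtT F → Va} {zaH : LnT F → Va} {q q₀ q₁ s : ℕ}
    (hD : ∀ s, (Ht s).totalDegree ≤ D)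
    (HG : HbG F c D x e₀ sg w₀ w W b a' g₁ g₂ g gb g' gT kG M v v' e p U B ψ₁ ψ₂ ψ ψ'
      Sv ψH₁ ψH₂ ψH ψH' Ga Gc G' Ha Hc H' T TH Ht)
    (N₂ : BsN x sg q q₁ w₀ w g₁ g₂) (hq : q ≤ q₀) (hw : w ≤ W)
    (la : ∀ l < 3, l ≠ 0 → g₂ l + q ≤ g l) (la' : ∀ l < 3, l ≠ 0 → g₂ l + q + W ≤ g l + w)
    (hn : s + g 3 + 2 ≤ g₂ 3 + q + sg + 2 * (W - w))
    (hC : Co0 F c sg x (w - w₀) w g₂ ψH₂ Ht B) (hz : Rcd F B W za zaH)
    {gr : ℕ → ℕ} {ar k kr e₀' e₁ nr V : ℕ} {ψr : PtT F → ℕ → Option (Fin m) → ℝ}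
    {ψHr : LnT F → ℕ → Option (Fin m) → ℝ} {δ δ₁ δ' Kn L K B₀ : ℝ}
    (H : ReH F c g gr W (W - w₀) D ar k kr e₀' e₁ nr s V ψ ψr ψH ψHr Ht B zaH
      (eL (hdt2 F c g₂ w (w - w₀) 3 D q₀ q sg ψH₂ Ht hD) w W (g₂ 0 + q₁)) δ δ₁ δ' Kn L K B₀)
    (hT : ∀ ω, B ω → |Tn F c g W (W - w₀) ψH Ht ω| ≤ K / 2 ^ s)
    {P : F.Ω → ℝ} (hp : IsLaw P) (hB : ∀ ω, 0 < P ω → B ω) {N : ℕ}
    (hN : 12 * K * (L + B₀) ≤ N) {E : ℝ}
    (few : CH P (fun ω => ⌊(2 : ℝ) ^ (g₂ 3 + q + sg) *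
      nw (hdt2 F c g₂ w (w - w₀) 3 D q₀ q sg ψH₂ Ht hD) w
        (rfv P (fun ω => (za (ptr F J ω),
            yc (hdt2 F c g₂ w (w - w₀) 3 D q₀ q sg ψH₂ Ht hD) w W ω))
          (eR (hdt2 F c g₂ w (w - w₀) 3 D q₀ q sg ψH₂ Ht hD) w)
          (fun ω l => (hdt2 F c g₂ w (w - w₀) 3 D q₀ q sg ψH₂ Ht hD).P l (slam F w ω))
          (za (ptr F J ω), yc (hdt2 F c g₂ w (w - w₀) 3 D q₀ q sg ψH₂ Ht hD) w W ω)
          (eR (hdt2 F c g₂ w (w - w₀) 3 D q₀ q sg ψH₂ Ht hD) w ω)) ω⌋)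
      (fun ω => (eR (hdt2 F c g₂ w (w - w₀) 3 D q₀ q sg ψH₂ Ht hD) w ω,
        (za (ptr F J ω), yc (hdt2 F c g₂ w (w - w₀) 3 D q₀ q sg ψH₂ Ht hD) w W ω))) ≤ E) :
    CH P (fun ω => ⌊2 ^ s * ∑ i, An F c g W (W - w₀) ψH Ht ω i * Vn F c g W ψ ω i⌋)
      (fun ω => (eL (hdt2 F c g₂ w (w - w₀) 3 D q₀ q sg ψH₂ Ht hD) w W (g₂ 0 + q₁)
        (slam F W ω), (zaH (slam F W ω),
          yc (hdt2 F c g₂ w (w - w₀) 3 D q₀ q sg ψH₂ Ht hD) w W ω))) ≤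
      E + (71 * x + 22 * kG + 90 : ℕ) * Real.log 2 + 2 * Real.log (2 * (2 * N + 2 : ℕ) + 1) := by
  have h1 := few_cg_y (SV := fun _ => 0) (SE := fun _ => 0) (SG := fun _ => 0) hD HG N₂ hq hw la
    la' hn hC hz hp hB few
  have h2 := few_sum_y H (ycL (hdt2 F c g₂ w (w - w₀) 3 D q₀ q sg ψH₂ Ht hD) w W) hp hB hN hT h1
  refine le_trans (le_of_eq ?_) h2
  simp only [ycL_slam _ hw HG.hA.aJ]

end Pool.D2N
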